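import Mathlib
import Pool.Agent.X318.SixKTwo

/-!
# MP_49e939_nt: 2-adic behaviour of a normalised binomial convolution
-/

set_option autoImplicit false

open Finset

namespace Pool.Agent.Results.MP_49e939_nt.TwoAdicSixK

/-- `t_k = C(6k,3k) C(3k,k)`. -/
def t (k : ℕ) : ℕ := (6 * k).choose (3 * k) * (3 * k).choose k

/-- `a(n) = (1/((2n-1) C(3n,n))) * ∑_{k=0}^n t_k t_{n-k}`, a rational number. -/
def a (n : ℕ) : ℚ :=
  1 / ((2 * (n : ℚ) - 1) * ((3 * n).choose n : ℚ)) *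
    ∑ k ∈ range (n + 1), (t k : ℚ) * (t (n - k) : ℚ)

/-- For every `n ≥ 1`, `a(n)` is an integer divisible by `8`, and the integer `a(n)/8` is odd
exactly when `n` is a power of two (`n = 2^j` with `j ≥ 0`). -/
theorem result : ∀ n : ℕ, 1 ≤ n → ∃ b : ℤ, a n = ((8 * b : ℤ) : ℚ) ∧
    (Odd b ↔ ∃ j : ℕ, n = 2 ^ j) := by
  intro n hn
  obtain ⟨b, hb, hodd⟩ := Pool.Agent.X318.SixK.main n hn
  refine ⟨b, ?_, ?_⟩
  · have h1 : ∑ k ∈ range (n + 1), (t k : ℚ) * (t (n - k) : ℚ) =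
        ((Pool.Agent.X318.SixK.S n : ℕ) : ℚ) := by
      unfold Pool.Agent.X318.SixK.S
      push_cast
      rfl
    have h2 : ((2 * n - 1 : ℕ) : ℚ) = 2 * (n : ℚ) - 1 := by
      rw [Nat.cast_sub (by omega)]
      push_cast
      ring
    have h3 : (2 * (n : ℚ) - 1) ≠ 0 := by
      have : (1 : ℚ) ≤ n := by exact_mod_cast hn
      intro h
      linarith
    have h4 : ((3 * n).choose n : ℚ) ≠ 0 := by
      have : 0 < (3 * n).choose n := Nat.choose_pos (by omega)
      exact_mod_cast this.ne'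
    unfold a
    rw [h1, hb]
    push_cast [h2]
    field_simp
  · rw [Int.odd_iff, ← hodd, Nat.odd_iff]
    omega

end Pool.Agent.Results.MP_49e939_nt.TwoAdicSixK
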